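import Mathlib
import Pool.Agent.R333.CF2

/-!
# Closed-loop cost matrix versus decay rate under state feedback

For `1 ≤ m < n` and a complex `n × n` matrix `A` there is an explicit function `G` with
`G x → ∞` as `x → ∞` such that `‖X₀‖ ≥ G (decay rate of A - B F)` for all `B`, `F` with
`A - B F` stable.
-/

set_option linter.style.haveILetI false

open MeasureTheory Filter Set Topology
open scoped Matrix.Norms.L2Operator Matrix

namespace Pool.Agent.Results.MP_cf5fc4_an.CostVersusDecay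

/-- `M` is stable: every eigenvalue has negative real part. -/
def IsStable {n : ℕ} (M : Matrix (Fin n) (Fin n) ℂ) : Prop :=
  ∀ z ∈ spectrum ℂ M, z.re < 0

/-- The decay rate `min {- Re z : z an eigenvalue of M}`. -/
noncomputable def decayRate {n : ℕ} (M : Matrix (Fin n) (Fin n) ℂ) : ℝ :=
  sInf ((fun z : ℂ => -z.re) '' spectrum ℂ M)

/-- The cost matrix `X₀ = ∫₀^∞ exp(M t)ᴴ exp(M t) dt`. -/
noncomputable def costMatrix {n : ℕ} (M : Matrix (Fin n) (Fin n) ℂ) : Matrix (Fin n) (Fin n) ℂ :=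
  ∫ t in Ioi (0 : ℝ), (NormedSpace.exp ((t : ℂ) • M))ᴴ * NormedSpace.exp ((t : ℂ) • M)

/-- The explicit lower bound; `a` stands for the Euclidean operator norm of `A`. -/
noncomputable def G (n : ℕ) (a x : ℝ) : ℝ :=
  x * Real.log x / (2 * 4 ^ n + 2 * a ^ 2 * (n + 1) * Real.log x ^ 2)

lemma tendsto_G (n : ℕ) (a : ℝ) : Tendsto (G n a) atTop atTop := by
  set D : ℝ := 2 * 4 ^ n + 2 * a ^ 2 * (n + 1) with hD
  have hDpos : 0 < D := by positivity
  have h1 : Tendsto (fun x : ℝ => Real.sqrt x / (2 * D)) atTop atTop :=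
    Tendsto.atTop_div_const (by positivity) Real.tendsto_sqrt_atTop
  refine tendsto_atTop_mono' atTop ?_ h1
  filter_upwards [eventually_ge_atTop (Real.exp 1)] with x hx
  have hx0 : 0 < x := lt_of_lt_of_le (Real.exp_pos 1) hx
  have hL : 1 ≤ Real.log x := by
    rw [Real.le_log_iff_exp_le hx0]
    exact hx
  have hs0 : 0 < Real.sqrt x := Real.sqrt_pos.2 hx0
  have hsq : Real.sqrt x ^ 2 = x := Real.sq_sqrt hx0.le
  have hL2 : Real.log x ≤ 2 * Real.sqrt x := by
    have e1 : Real.log x = 2 * Real.log (Real.sqrt x) := by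
      conv_lhs => rw [← hsq]
      rw [Real.log_pow]
      norm_num
    have e2 := Real.log_le_sub_one_of_pos hs0
    rw [e1]
    linarith
  unfold G
  have hden : 0 < 2 * (4 : ℝ) ^ n + 2 * a ^ 2 * (n + 1) * Real.log x ^ 2 := by positivity
  rw [div_le_div_iff₀ (by positivity) hden]
  have hb : 2 * (4 : ℝ) ^ n + 2 * a ^ 2 * (n + 1) * Real.log x ^ 2 ≤ D * Real.log x ^ 2 := by
    have : (1 : ℝ) ≤ Real.log x ^ 2 := by nlinarith
    rw [hD, add_mul]
    have h4 : (0 : ℝ) ≤ 2 * 4 ^ n := by positivity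
    nlinarith
  calc Real.sqrt x * (2 * 4 ^ n + 2 * a ^ 2 * (n + 1) * Real.log x ^ 2)
      ≤ Real.sqrt x * (D * Real.log x ^ 2) := mul_le_mul_of_nonneg_left hb hs0.le
    _ = Real.sqrt x * Real.log x * (D * Real.log x) := by ring
    _ ≤ Real.sqrt x * (2 * Real.sqrt x) * (D * Real.log x) := by
        apply mul_le_mul_of_nonneg_right _ (by positivity)
        exact mul_le_mul_of_nonneg_left hL2 hs0.le
    _ = x * Real.log x * (2 * D) := by
        rw [← hsq]
        rw [Real.sqrt_sq hs0.le]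
        ring

/-- A unit vector `w` with `wᴴ B = 0`. -/
lemma exists_unit {n m : ℕ} (hmn : m < n) (B : Matrix (Fin n) (Fin m) ℂ) :
    ∃ w : EuclideanSpace ℂ (Fin n), ‖w‖ = 1 ∧ Bᴴ *ᵥ w.ofLp = 0 := by
  have h1 : LinearMap.ker (Matrix.mulVecLin Bᴴ) ≠ ⊥ := by
    apply LinearMap.ker_ne_bot_of_finrank_lt
    simpa using hmn
  obtain ⟨v, hv, hv0⟩ := Submodule.exists_mem_ne_zero_of_ne_bot h1
  rw [LinearMap.mem_ker, Matrix.mulVecLin_apply] at hv
  set v' : EuclideanSpace ℂ (Fin n) := WithLp.toLp 2 v with hv'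
  have hv'0 : v' ≠ 0 := by
    intro h0
    apply hv0
    have := congrArg WithLp.ofLp h0
    simpa [hv'] using this
  have hnorm : ‖v'‖ ≠ 0 := norm_ne_zero_iff.2 hv'0
  refine ⟨((‖v'‖⁻¹ : ℝ) : ℂ) • v', ?_, ?_⟩
  · rw [norm_smul, Complex.norm_real, norm_inv, norm_norm, inv_mul_cancel₀ hnorm]
  · rw [WithLp.ofLp_smul, Matrix.mulVec_smul, hv', WithLp.ofLp_toLp, hv, smul_zero]

lemma spectrum_eq {n : ℕ} (M : Matrix (Fin n) (Fin n) ℂ) :
    spectrum ℂ (Matrix.toEuclideanCLM (n := Fin n) (𝕜 := ℂ) M) = spectrum ℂ M :=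
  AlgEquiv.spectrum_eq (Matrix.toEuclideanCLM (n := Fin n) (𝕜 := ℂ)) M

lemma continuous_clm {n : ℕ} :
    Continuous (Matrix.toEuclideanCLM (n := Fin n) (𝕜 := ℂ)) := by
  apply AddMonoidHomClass.continuous_of_bound (Matrix.toEuclideanCLM (n := Fin n) (𝕜 := ℂ)) 1
  intro x
  rw [Matrix.l2_opNorm_toEuclideanCLM, one_mul]

lemma clm_exp {n : ℕ} (M : Matrix (Fin n) (Fin n) ℂ) (t : ℂ) :
    Matrix.toEuclideanCLM (n := Fin n) (𝕜 := ℂ) (NormedSpace.exp (t • M)) =
      NormedSpace.exp (t • Matrix.toEuclideanCLM (n := Fin n) (𝕜 := ℂ) M) := by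
  letI : NormedAlgebra ℚ (Matrix (Fin n) (Fin n) ℂ) := NormedAlgebra.restrictScalars ℚ ℂ _
  letI : NormedAlgebra ℚ (EuclideanSpace ℂ (Fin n) →L[ℂ] EuclideanSpace ℂ (Fin n)) :=
    NormedAlgebra.restrictScalars ℚ ℂ _
  rw [NormedSpace.map_exp (Matrix.toEuclideanCLM (n := Fin n) (𝕜 := ℂ)) continuous_clm, map_smul]

/-- The linear functional `X ↦ wᴴ X w`. -/
noncomputable def quad {n : ℕ} (w : EuclideanSpace ℂ (Fin n)) :
    Matrix (Fin n) (Fin n) ℂ →L[ℂ] ℂ :=
  LinearMap.mkContinuous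
    { toFun := fun X => inner ℂ w (Matrix.toEuclideanCLM (n := Fin n) (𝕜 := ℂ) X w)
      map_add' := fun X Y => by
        rw [map_add, add_apply, inner_add_right]
      map_smul' := fun c X => by
        rw [map_smul, smul_apply, inner_smul_right]
        rfl } (‖w‖ * ‖w‖) (by
      intro X
      refine (norm_inner_le_norm (𝕜 := ℂ) w
        (Matrix.toEuclideanCLM (n := Fin n) (𝕜 := ℂ) X w)).trans ?_
      have := (Matrix.toEuclideanCLM (n := Fin n) (𝕜 := ℂ) X).le_opNorm w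
      rw [Matrix.l2_opNorm_toEuclideanCLM] at this
      calc ‖w‖ * ‖(Matrix.toEuclideanCLM (n := Fin n) (𝕜 := ℂ) X) w‖ ≤ ‖w‖ * (‖X‖ * ‖w‖) :=
            mul_le_mul_of_nonneg_left this (norm_nonneg _)
        _ = ‖w‖ * ‖w‖ * ‖X‖ := by ring)

lemma quad_apply {n : ℕ} (w : EuclideanSpace ℂ (Fin n)) (X : Matrix (Fin n) (Fin n) ℂ) :
    quad w X = inner ℂ w (Matrix.toEuclideanCLM (n := Fin n) (𝕜 := ℂ) X w) := rfl

lemma quad_star_mul {n : ℕ} (w : EuclideanSpace ℂ (Fin n)) (E : Matrix (Fin n) (Fin n) ℂ) :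
    quad w (Eᴴ * E) =
      ((‖Matrix.toEuclideanCLM (n := Fin n) (𝕜 := ℂ) E w‖ ^ 2 : ℝ) : ℂ) := by
  rw [quad_apply, map_mul, ← Matrix.star_eq_conjTranspose, map_star, mul_apply_eq_comp,
    ContinuousLinearMap.star_eq_adjoint, ContinuousLinearMap.adjoint_inner_right,
    inner_self_eq_norm_sq_to_K]
  norm_cast

/-- **Main theorem.** Let `1 ≤ m < n` and let `A` be a complex `n × n` matrix. The explicit
function `G n ‖A‖` (with the Euclidean operator norm) tends to infinity, and for all complex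
matrices `B` (`n × m`) and `F` (`m × n`) such that `A - B F` is stable, the integral defining the
cost matrix `X₀` converges and `‖X₀‖ ≥ G n ‖A‖ (decayRate (A - B F))`. -/
theorem result (n m : ℕ) (_hm : 1 ≤ m) (hmn : m < n) (A : Matrix (Fin n) (Fin n) ℂ) :
    Tendsto (G n ‖A‖) atTop atTop ∧
    ∀ (B : Matrix (Fin n) (Fin m) ℂ) (F : Matrix (Fin m) (Fin n) ℂ), IsStable (A - B * F) →
      IntegrableOn (fun t : ℝ => (NormedSpace.exp ((t : ℂ) • (A - B * F)))ᴴ *
        NormedSpace.exp ((t : ℂ) • (A - B * F))) (Ioi 0) ∧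
      G n ‖A‖ (decayRate (A - B * F)) ≤ ‖costMatrix (A - B * F)‖ := by
  refine ⟨tendsto_G n ‖A‖, fun B F hst => ?_⟩
  have hn : 0 < n := by omega
  haveI : Nonempty (Fin n) := ⟨⟨0, hn⟩⟩
  haveI : Nontrivial (EuclideanSpace ℂ (Fin n)) := by
    apply Module.nontrivial_of_finrank_pos (R := ℂ)
    simpa using hn
  set M := A - B * F with hM
  set T := Matrix.toEuclideanCLM (n := Fin n) (𝕜 := ℂ) M with hT
  have hspec : spectrum ℂ T = spectrum ℂ M := spectrum_eq M
  have hfin : (spectrum ℂ M).Finite := Matrix.finite_spectrum M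
  have hne : (spectrum ℂ M).Nonempty := by
    rw [← hspec]
    exact spectrum.nonempty T
  set g := decayRate M with hg
  have hmem : g ∈ (fun z : ℂ => -z.re) '' spectrum ℂ M :=
    (hne.image _).csInf_mem (hfin.image _)
  have hgpos : 0 < g := by
    obtain ⟨z, hz, hzg⟩ := hmem
    rw [← hzg]
    have := hst z hz
    simp only
    linarith
  have hT2 : ∀ z ∈ spectrum ℂ T, z.re ≤ -g := by
    intro z hz
    rw [hspec] at hz
    have : g ≤ -z.re := csInf_le (hfin.image _).bddBelow ⟨z, hz, rfl⟩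
    linarith
  have hT1 : ∀ z ∈ spectrum ℂ T, z.re < 0 := fun z hz => lt_of_le_of_lt (hT2 z hz) (by linarith)
  set I : ℝ → Matrix (Fin n) (Fin n) ℂ := fun t =>
    (NormedSpace.exp ((t : ℂ) • M))ᴴ * NormedSpace.exp ((t : ℂ) • M) with hI
  have hIc : Continuous I := by
    letI : NormedAlgebra ℚ (Matrix (Fin n) (Fin n) ℂ) := NormedAlgebra.restrictScalars ℚ ℂ _
    have h1 : Continuous fun t : ℝ => NormedSpace.exp ((t : ℂ) • M) := by
      have : Continuous (NormedSpace.exp : Matrix (Fin n) (Fin n) ℂ → Matrix (Fin n) (Fin n) ℂ) :=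
        NormedSpace.exp_continuous
      exact this.comp (by fun_prop)
    have h2 : Continuous fun t : ℝ => star (NormedSpace.exp ((t : ℂ) • M)) := h1.star
    exact h2.mul h1
  obtain ⟨C, c, hc0, hCc⟩ := Pool.Agent.R333.CF.exists_exp_bound T hT1
  have hbound : ∀ t : ℝ, 0 < t → ‖I t‖ ≤ C ^ 2 * Real.exp (-(2 * c) * t) := by
    intro t ht
    have h1 := hCc t ht.le
    rw [hT, ← clm_exp, Matrix.l2_opNorm_toEuclideanCLM] at h1
    rw [hI]
    simp only
    rw [Matrix.l2_opNorm_conjTranspose_mul_self]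
    calc ‖NormedSpace.exp ((t : ℂ) • M)‖ * ‖NormedSpace.exp ((t : ℂ) • M)‖ ≤
          (C * Real.exp (-c * t)) * (C * Real.exp (-c * t)) :=
          mul_self_le_mul_self (norm_nonneg _) h1
      _ = C ^ 2 * (Real.exp (-c * t) * Real.exp (-c * t)) := by ring
      _ = _ := by
          rw [← Real.exp_add]
          congr 2
          ring
  have hint : IntegrableOn I (Ioi 0) := by
    have h1 : IntegrableOn (fun t : ℝ => C ^ 2 * Real.exp (-(2 * c) * t)) (Ioi 0) :=
      (integrableOn_exp_mul_Ioi (by linarith) 0).const_mul _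
    refine Integrable.mono' h1 hIc.aestronglyMeasurable ?_
    exact (ae_restrict_iff' measurableSet_Ioi).2 (Eventually.of_forall fun t ht => hbound t ht)
  refine ⟨hint, ?_⟩
  obtain ⟨w, hw1, hwB⟩ := exists_unit hmn B
  have hquad : ∀ t : ℝ, quad w (I t) =
      ((‖NormedSpace.exp ((t : ℂ) • T) w‖ ^ 2 : ℝ) : ℂ) := by
    intro t
    rw [hI]
    simp only
    rw [quad_star_mul, clm_exp]
  have hsqint : IntegrableOn (fun t : ℝ => ‖NormedSpace.exp ((t : ℂ) • T) w‖ ^ 2) (Ioi 0) := by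
    have h1 : IntegrableOn (fun t => quad w (I t)) (Ioi 0) := (quad w).integrable_comp hint
    have h2 := h1.re
    refine h2.congr (Eventually.of_forall fun t => ?_)
    simp only [hquad]
    exact Complex.ofReal_re _
  have hK : ∫ t in Ioi (0 : ℝ), ‖NormedSpace.exp ((t : ℂ) • T) w‖ ^ 2 ≤ ‖costMatrix M‖ := by
    have h1 : ∫ t in Ioi (0 : ℝ), quad w (I t) = quad w (costMatrix M) :=
      (quad w).integral_comp_comm hint
    have h2 : ∫ t in Ioi (0 : ℝ), quad w (I t) =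
        ((∫ t in Ioi (0 : ℝ), ‖NormedSpace.exp ((t : ℂ) • T) w‖ ^ 2 : ℝ) : ℂ) := by
      simp only [hquad]
      exact integral_ofReal
    have h3 : ‖quad w (costMatrix M)‖ ≤ ‖costMatrix M‖ := by
      refine ((quad w).le_opNorm _).trans ?_
      have : ‖quad w‖ ≤ 1 := by
        refine (LinearMap.mkContinuous_norm_le _ (by positivity) _).trans ?_
        rw [hw1, one_mul]
      calc ‖quad w‖ * ‖costMatrix M‖ ≤ 1 * ‖costMatrix M‖ :=
            mul_le_mul_of_nonneg_right this (norm_nonneg _)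
        _ = _ := one_mul _
    rw [← h1, h2, Complex.norm_real] at h3
    exact (le_abs_self _).trans h3
  have ha : ∀ y, ‖(inner ℂ w (T y) : ℂ)‖ ≤ ‖A‖ * ‖y‖ := by
    intro y
    have h1 : T y = Matrix.toEuclideanCLM (n := Fin n) (𝕜 := ℂ) A y -
        Matrix.toEuclideanCLM (n := Fin n) (𝕜 := ℂ) (B * F) y := by
      rw [hT, hM, map_sub]
      rfl
    have h2 : (inner ℂ w (Matrix.toEuclideanCLM (n := Fin n) (𝕜 := ℂ) (B * F) y) : ℂ) = 0 := by
      rw [EuclideanSpace.inner_eq_star_dotProduct, Matrix.ofLp_toEuclideanCLM,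
        dotProduct_comm, ← Matrix.mulVec_mulVec, Matrix.dotProduct_mulVec]
      have : star w.ofLp ᵥ* B = 0 := by
        rw [← Matrix.conjTranspose_conjTranspose B, ← Matrix.star_mulVec, hwB, star_zero]
      rw [this, zero_dotProduct]
    rw [h1, inner_sub_right, h2, sub_zero]
    refine (norm_inner_le_norm _ _).trans ?_
    rw [hw1, one_mul]
    have := (Matrix.toEuclideanCLM (n := Fin n) (𝕜 := ℂ) A).le_opNorm y
    rwa [Matrix.l2_opNorm_toEuclideanCLM] at this
  have hfr : Module.finrank ℂ (EuclideanSpace ℂ (Fin n)) = n := by simp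
  have hmain : ∀ h : ℝ, 0 < h → h ≤ ‖costMatrix M‖ * (2 * 4 ^ n * Real.exp (-(g * h)) ^ 2 +
      2 * ‖A‖ ^ 2 * (n + 1) * h ^ 2) := by
    intro h hh
    apply Pool.Agent.R333.CF.solved_ineq n g ‖A‖ _ h hh (norm_nonneg _) (norm_nonneg _)
    have := Pool.Agent.R333.CF.main_ineq T g hgpos.le hT2 w hw1 ‖A‖ (norm_nonneg _) ha
      ‖costMatrix M‖ hsqint hK h hh
    rwa [hfr] at this
  rcases le_or_gt g 1 with hg1 | hg1
  · have hL : Real.log g ≤ 0 := Real.log_nonpos hgpos.le hg1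
    have : G n ‖A‖ g ≤ 0 := by
      unfold G
      apply div_nonpos_of_nonpos_of_nonneg
      · exact mul_nonpos_of_nonneg_of_nonpos hgpos.le hL
      · positivity
    exact this.trans (norm_nonneg _)
  · have hL : 0 < Real.log g := Real.log_pos hg1
    have h1 := hmain (Real.log g / g) (by positivity)
    have h2 : Real.exp (-(g * (Real.log g / g))) = 1 / g := by
      rw [mul_div_cancel₀ _ hgpos.ne', Real.exp_neg, Real.exp_log hgpos, one_div]
    rw [h2] at h1
    have hD : 0 < 2 * (4 : ℝ) ^ n + 2 * ‖A‖ ^ 2 * (n + 1) * Real.log g ^ 2 := by positivity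
    unfold G
    rw [div_le_iff₀ hD]
    have h3 : ‖costMatrix M‖ * (2 * 4 ^ n * (1 / g) ^ 2 +
        2 * ‖A‖ ^ 2 * (n + 1) * (Real.log g / g) ^ 2) =
        ‖costMatrix M‖ * (2 * 4 ^ n + 2 * ‖A‖ ^ 2 * (n + 1) * Real.log g ^ 2) / g ^ 2 := by
      field_simp
    rw [h3, le_div_iff₀ (by positivity)] at h1
    calc g * Real.log g = Real.log g / g * g ^ 2 := by
          field_simp
      _ ≤ _ := h1

end Pool.Agent.Results.MP_cf5fc4_an.CostVersusDecay
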